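import Mathlib
import Pool.Agent.H22.Nvl2

namespace Pool.Agent.Results.MP_606b74_al.Counter

open Pool.Agent.H22.Nvl2

theorem result : ∃ (G : Type) (_ : Group G) (_ : Finite G),
    commutator G = ⊤ ∧ Subgroup.center G = ⊥ ∧
      (⨆ x : G, (conjugatesOf x).ncard) ^ 2 < Nat.card G := by
  refine ⟨G, inferInstance, inferInstance, perfect_G, center_G, ?_⟩
  have h : (⨆ x : G, (conjugatesOf x).ncard) ≤ 5 ^ 24 * 120 := ciSup_le class_le
  rw [card_G]
  calc _ ≤ (5 ^ 24 * 120) ^ 2 := Nat.pow_le_pow_left h 2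
    _ < _ := by norm_num

end Pool.Agent.Results.MP_606b74_al.Counter
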